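import Pool.Agent.H4.SA.Rot

/-!
# The admissible colourings
-/

set_option autoImplicit false
set_option linter.all false

open Polynomial
open scoped Classical

namespace Pool.Agent.H4.SA

open Pool.Agent.H341R2.Sharp (lam)
open Pool.Agent.Y164.PS (lam_mem lam_eq_zero_iff lam_mul_left lam_irr Pr mem_Pr)
open Pool.Agent.X261.TD (ones)

section fin

variable {k : Type} [Field k] [Fintype k] [DecidableEq k]

/-- The sign of the colour `ω` at the prime `x`, for the colouring `v` of the primes in `S`. -/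
noncomputable def Lam (f : k[X]) (u : k) (S : Finset k[X]) (v : S → k[X]) (x : S) (ω : k[X]) : ℤ :=
  dgn f u x (v x) ω * ∏ y ∈ Finset.univ.erase x, sig f y (v y) x (v x) ω

/-- The colourings with trivial signs. -/
noncomputable def Adm (f : k[X]) (u : k) (S : Finset k[X]) : Finset (S → k[X]) :=
  (Fintype.piFinset fun x : S => VV f x).filter fun v =>
    ∀ x : S, ∀ ω ∈ VV f x.1, Lam f u S v x ω = 1

theorem mem_Adm {f : k[X]} {u : k} {S : Finset k[X]} {v : S → k[X]} :
    v ∈ Adm f u S ↔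
    (∀ x : S, v x ∈ VV f x.1) ∧ ∀ x : S, ∀ ω ∈ VV f x.1, Lam f u S v x ω = 1 := by
  unfold Adm
  rw [Finset.mem_filter, Fintype.mem_piFinset]

variable {f : k[X]} {u : k} {S : Finset k[X]} {v : S → k[X]} {x : S}

theorem Lam_one : Lam f u S v x 1 = 1 := by
  unfold Lam
  have h1 : dgn f u x (v x) 1 = 1 := by
    unfold dgn
    rw [if_neg (fun h => h.2.1 rfl)]
  have h2 : ∀ y : S, sig f y (v y) x (v x) 1 = 1 := fun y => by
    unfold sig
    rw [if_pos rfl, if_neg (fun h => h.2.1 rfl), mul_one]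
  rw [h1, one_mul]
  exact Finset.prod_eq_one fun y _ => h2 y

theorem Lam_lin {ω : k[X]} (hω : ω ≠ 1) (h : v x = 1 ∨ v x = ω) :
    Lam f u S v x ω = ∏ y ∈ Finset.univ.erase x, lam (zz f y (v y)) ω := by
  unfold Lam
  have hn : ¬ (v x ≠ 1 ∧ ω ≠ 1 ∧ v x ≠ ω) := by
    rintro ⟨h1, -, h2⟩
    rcases h with h | h
    · exact h1 h
    · exact h2 h
  have h1 : dgn f u x (v x) ω = 1 := by
    unfold dgn
    rw [if_neg hn]
  rw [h1, one_mul]
  refine Finset.prod_congr rfl fun y _ => ?_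
  unfold sig
  rw [if_neg hω, if_neg hn, mul_one]

theorem Lam_X {ω : k[X]} (h : v x ≠ 1 ∧ ω ≠ 1 ∧ v x ≠ ω) :
    Lam f u S v x ω = lam (C u) x * eta f x (v x) ω *
      ∏ y ∈ Finset.univ.erase x, (lam (zz f y (v y)) ω * lam y.1 x) := by
  unfold Lam
  congr 1
  · unfold dgn
    rw [if_pos h]
  · refine Finset.prod_congr rfl fun y _ => ?_
    unfold sig
    rw [if_neg h.2.1, if_pos h]

end fin

end Pool.Agent.H4.SA
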