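import Pool.Agent.H4.SA.Good

/-!
# The symbol of the complementary factor
-/

set_option autoImplicit false
set_option linter.all false

open Polynomial Matrix

namespace Pool.Agent.H4.SA

open Pool.Agent.H341R2.Sharp (lam qc_norm qc_aeval)
open Pool.Agent.Y164.PS (lam_mem lam_eq_zero_iff lam_mul_left lam_irr Pr mem_Pr)

section disc

variable {k E : Type} [Field k] [Field E] [Algebra k E]

theorem discr_sq {ι : Type} [Fintype ι] [DecidableEq ι] (b b' : Module.Basis ι k E) :
    ∃ c : k, Algebra.discr k b' = c ^ 2 * Algebra.discr k b := by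
  refine ⟨(b.toMatrix b').det, ?_⟩
  rw [← Algebra.discr_of_matrix_vecMul]
  congr 1
  funext j
  have h1 := b.sum_toMatrix_smul_self b' j
  rw [← h1]
  show _ = ∑ i, b i * algebraMap k E (b.toMatrix b' i j)
  refine Finset.sum_congr rfl fun i _ => ?_
  rw [Algebra.smul_def, mul_comm]

variable [Fintype k] [DecidableEq k] [FiniteDimensional k E] [Algebra.IsSeparable k E]

theorem qc_discr {ι : Type} [Fintype ι] [DecidableEq ι] (b b' : Module.Basis ι k E) :
    quadraticChar k (Algebra.discr k b') = quadraticChar k (Algebra.discr k b) := by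
  obtain ⟨c, hc⟩ := discr_sq b b'
  have h1 := Algebra.discr_not_zero_of_basis k b'
  have hc0 : c ≠ 0 := by
    rintro rfl
    apply h1
    rw [hc]
    ring
  rw [hc, map_mul, map_pow, quadraticChar_sq_one hc0, one_mul]

theorem qc_pb (pb pb' : PowerBasis k E) :
    quadraticChar k (Algebra.norm k (aeval pb.gen (derivative (minpoly k pb.gen)))) =
      quadraticChar k (Algebra.norm k (aeval pb'.gen (derivative (minpoly k pb'.gen)))) := by
  have hdim : pb'.dim = pb.dim := by rw [← pb.finrank, ← pb'.finrank]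
  have h1 := qc_discr pb.basis (pb'.basis.reindex (finCongr hdim))
  have h2 : Algebra.discr k (pb'.basis.reindex (finCongr hdim)) = Algebra.discr k pb'.basis := by
    have := Algebra.discr_reindex k pb'.basis (finCongr hdim)
    rw [← this]
    congr 1
    funext i
    simp [Module.Basis.reindex_apply]
  rw [h2, Algebra.discr_powerBasis_eq_norm, Algebra.discr_powerBasis_eq_norm, map_mul, map_mul] at h1
  have h3 : quadraticChar k ((-1) ^ (Module.finrank k E * (Module.finrank k E - 1) / 2)) ≠ 0 := by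
    rw [Ne, quadraticChar_eq_zero_iff]
    exact pow_ne_zero _ (by simp)
  exact (mul_left_cancel₀ h3 h1).symm

end disc

section

variable {k : Type} [Field k] [Fintype k] [DecidableEq k] {f P Q : k[X]}

theorem lam_derivs (hk : ringChar k ≠ 2) (h : One f P Q) :
    lam (derivative Q) Q = lam (derivative P) P := by
  classical
  haveI : Fact (Irreducible Q) := ⟨h.iQ⟩
  haveI : Module.Finite k (AdjoinRoot Q) := h.mQ.finite_adjoinRoot
  haveI : Finite (AdjoinRoot Q) := Module.finite_of_finite k
  letI : Fintype (AdjoinRoot Q) := Fintype.ofFinite _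
  have hP0 : aeval (AdjoinRoot.mk Q f) P = 0 := by
    rw [← AdjoinRoot.aeval_eq (f := Q) (p := f), ← aeval_comp, AdjoinRoot.aeval_eq]
    exact AdjoinRoot.mk_eq_zero.2 h.dvd
  have hmP : minpoly k (AdjoinRoot.mk Q f) = P :=
    (minpoly.eq_of_irreducible_of_monic h.iP hP0 h.mP).symm
  have hint : IsIntegral k (AdjoinRoot.mk Q f) := Algebra.IsIntegral.isIntegral _
  have htop : Algebra.adjoin k {AdjoinRoot.mk Q f} = ⊤ := by
    rw [eq_top_iff]
    rintro y -
    obtain ⟨g, rfl⟩ := AdjoinRoot.mk_surjective y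
    obtain ⟨m, hm⟩ := h.surj g
    have e : AdjoinRoot.mk Q g = aeval (AdjoinRoot.mk Q f) m := by
      rw [← AdjoinRoot.aeval_eq (f := Q) (p := f), ← aeval_comp, AdjoinRoot.aeval_eq]
      exact (AdjoinRoot.mk_eq_mk.2 hm).symm
    rw [e]
    exact aeval_mem_adjoin_singleton k _
  let pb' : PowerBasis k (AdjoinRoot Q) := PowerBasis.ofAdjoinEqTop' hint htop
  have hgen : pb'.gen = AdjoinRoot.mk Q f := PowerBasis.ofAdjoinEqTop'_gen hint htop
  have h1 := qc_pb (AdjoinRoot.powerBasis h.iQ.ne_zero) pb'
  rw [hgen, hmP, AdjoinRoot.powerBasis_gen] at h1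
  have hmQ : minpoly k (AdjoinRoot.root Q) = Q := by
    rw [AdjoinRoot.minpoly_root h.iQ.ne_zero, h.mQ.leadingCoeff]
    simp
  have hfr : Module.finrank k (AdjoinRoot Q) = Q.natDegree := by
    rw [(AdjoinRoot.powerBasis h.iQ.ne_zero).finrank]
    rfl
  rw [hmQ, ← qc_norm hk, ← qc_norm hk, qc_aeval hk, qc_aeval hk, hmQ, hmP, hfr,
    Nat.div_self h.iQ.natDegree_pos, h.deg, Nat.div_self h.iP.natDegree_pos, pow_one, pow_one] at h1
  exact h1

/-- The complementary factor and the derivative of `f` have the same symbol. -/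
theorem lam_compl (hf : Cub f) (hP : Gd f P) (h : One f P Q) {R : k[X]}
    (hR : P.comp f = Q * R) : lam R Q = lam (derivative f) Q := by
  have hR0 : R ≠ 0 := by
    rintro rfl
    rw [mul_zero] at hR
    exact Pool.Agent.X261.TD.comp_ne hf.deg h.iP.ne_zero hR
  have hQ' : ¬ Q ∣ derivative Q := by
    intro h3
    have hs : Q.Separable := PerfectField.separable_of_irreducible h.iQ
    exact h.iQ.not_isUnit (hs.isUnit_of_dvd' dvd_rfl h3)
  have hP' : ¬ P ∣ derivative P := by
    intro h3
    have hs : P.Separable := PerfectField.separable_of_irreducible h.iP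
    exact h.iP.not_isUnit (hs.isUnit_of_dvd' dvd_rfl h3)
  have hf' := hP.not_deriv h.iQ h.dvd
  have nz : ∀ {g : k[X]}, ¬ Q ∣ g → g ≠ 0 := fun {g} hg h0 => hg (h0 ▸ dvd_zero _)
  have h1 : Q ∣ derivative f * (derivative P).comp f - derivative Q * R := by
    rw [← derivative_comp, hR, derivative_mul, add_sub_cancel_left]
    exact dvd_mul_right _ _
  have h2 := lam_congr hf.rc h.mQ h.iQ h1
  have hPf : ¬ Q ∣ (derivative P).comp f := fun h' => hP' ((h.ker _).1 h')
  rw [lam_mul_left (nz hf') (nz hPf), lam_mul_left (nz hQ') hR0, h.lam_comp hf.rc,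
    lam_derivs hf.rc h, mul_comm] at h2
  exact (mul_left_cancel₀ (lam_ne h.iP hP') h2).symm

end

end Pool.Agent.H4.SA
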