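import Pool.Agent.H4.SA.Lam
import Pool.Graph.R_pool_sql_team_seeded_64922ed1.X261.TD.Sqf

/-!
# Primes of `k[x]` of the degree of the prime of `k[t]` under them, `t = f(x)`
-/

set_option autoImplicit false
set_option linter.all false

open Polynomial

namespace Pool.Agent.H4.SA

open Pool.Agent.H341R2.Sharp (lam)
open Pool.Agent.Y164.PS (lam_mem lam_eq_zero_iff lam_mul_left lam_irr Pr mem_Pr)

/-- `Q` is a prime of `k[x]` over the prime `P` of `k[t]`, `t = f(x)`, with the same residue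
field. -/
structure One {k : Type} [Field k] (f P Q : k[X]) : Prop where
  mP : P.Monic
  iP : Irreducible P
  mQ : Q.Monic
  iQ : Irreducible Q
  dvd : Q ∣ P.comp f
  deg : Q.natDegree = P.natDegree

theorem comp_sub_dvd {k : Type} [Field k] {A B : k[X]} (g : k[X]) :
    A - B ∣ g.comp A - g.comp B := by
  have h := sub_dvd_eval_sub A B (g.map C)
  rwa [eval_map, eval_map] at h

section gen

variable {k : Type} [Field k] {f P Q : k[X]}

/-- The homomorphism of residue fields. -/
noncomputable def One.hom (h : One f P Q) : AdjoinRoot P →ₐ[k] AdjoinRoot Q :=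
  AdjoinRoot.liftAlgHom P (Algebra.ofId k (AdjoinRoot Q)) (AdjoinRoot.mk Q f) (by
    have h1 : AdjoinRoot.mk Q (P.comp f) = 0 := AdjoinRoot.mk_eq_zero.2 h.dvd
    rw [← AdjoinRoot.aeval_eq, aeval_comp, AdjoinRoot.aeval_eq] at h1
    exact h1)

theorem One.hom_mk (h : One f P Q) (m : k[X]) :
    h.hom (AdjoinRoot.mk P m) = AdjoinRoot.mk Q (m.comp f) := by
  have e1 : h.hom (AdjoinRoot.mk P m) = aeval (AdjoinRoot.mk Q f) m := rfl
  have e2 : aeval (AdjoinRoot.mk Q f) m = AdjoinRoot.mk Q (m.comp f) := by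
    rw [← AdjoinRoot.aeval_eq (f := Q) (p := f), ← aeval_comp, AdjoinRoot.aeval_eq]
  rw [e1, e2]

theorem One.bij (h : One f P Q) : Function.Bijective h.hom := by
  haveI : Fact (Irreducible P) := ⟨h.iP⟩
  haveI : Fact (Irreducible Q) := ⟨h.iQ⟩
  haveI : Module.Finite k (AdjoinRoot P) := h.mP.finite_adjoinRoot
  haveI : Module.Finite k (AdjoinRoot Q) := h.mQ.finite_adjoinRoot
  have hinj : Function.Injective h.hom := h.hom.toRingHom.injective
  have e : Module.finrank k (AdjoinRoot P) = Module.finrank k (AdjoinRoot Q) := by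
    rw [(AdjoinRoot.powerBasis h.iP.ne_zero).finrank, (AdjoinRoot.powerBasis h.iQ.ne_zero).finrank,
      AdjoinRoot.powerBasis_dim, AdjoinRoot.powerBasis_dim, h.deg]
  exact ⟨hinj, (LinearMap.injective_iff_surjective_of_finrank_eq_finrank
    (f := h.hom.toLinearMap) e).1 hinj⟩

theorem One.surj (h : One f P Q) (g : k[X]) : ∃ m : k[X], Q ∣ m.comp f - g := by
  obtain ⟨y, hy⟩ := h.bij.2 (AdjoinRoot.mk Q g)
  obtain ⟨m, rfl⟩ := AdjoinRoot.mk_surjective y
  rw [h.hom_mk, AdjoinRoot.mk_eq_mk] at hy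
  exact ⟨m, hy⟩

theorem One.ker (h : One f P Q) (m : k[X]) : Q ∣ m.comp f ↔ P ∣ m := by
  rw [← AdjoinRoot.mk_eq_zero, ← AdjoinRoot.mk_eq_zero, ← h.hom_mk]
  exact map_eq_zero_iff _ h.bij.1

/-- The value of `x` at `Q`, as a polynomial in `t`. -/
noncomputable def One.rho (h : One f P Q) : k[X] := (h.surj X).choose

theorem One.rho_spec (h : One f P Q) : Q ∣ h.rho.comp f - X := (h.surj X).choose_spec

theorem One.f_rho (h : One f P Q) : P ∣ f.comp h.rho - X := by
  rw [← h.ker, sub_comp, X_comp, comp_assoc]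
  have h1 : Q ∣ f.comp (h.rho.comp f) - f.comp X := h.rho_spec.trans (comp_sub_dvd f)
  rwa [comp_X] at h1

/-- If `x` is `r(t)` at `Q`, then `g(x)` is `g(r(t))`. -/
theorem One.dvd_iff (h : One f P Q) {r : k[X]} (hr : Q ∣ r.comp f - X) (g : k[X]) :
    Q ∣ g ↔ P ∣ g.comp r := by
  rw [← h.ker, comp_assoc]
  have h1 : Q ∣ g.comp (r.comp f) - g.comp X := hr.trans (comp_sub_dvd g)
  rw [comp_X] at h1
  constructor
  · intro h2
    have := dvd_add h1 h2
    rwa [sub_add_cancel] at this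
  · intro h2
    have := dvd_sub h2 h1
    rwa [sub_sub_cancel] at this

theorem One.rho_unique (h : One f P Q) {r r' : k[X]} (hr : Q ∣ r.comp f - X)
    (hr' : Q ∣ r'.comp f - X) : P ∣ r - r' := by
  rw [← h.ker, sub_comp]
  have := dvd_sub hr hr'
  rwa [sub_sub_sub_cancel_right] at this

theorem One.eq_of_rho {Q' : k[X]} (h : One f P Q) (h' : One f P Q') {r : k[X]}
    (hr : Q ∣ r.comp f - X) (hr' : Q' ∣ r.comp f - X) : Q = Q' := by
  have h1 : Q ∣ Q' := (h.dvd_iff hr Q').2 ((h'.dvd_iff hr' Q').1 dvd_rfl)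
  exact eq_of_monic_of_associated h.mQ h'.mQ (h.iQ.associated_of_dvd h'.iQ h1)

/-- Different primes over `P` have different values of `x`. -/
theorem One.rho_ne {Q' : k[X]} (h : One f P Q) (h' : One f P Q') (hne : Q ≠ Q') {r r' : k[X]}
    (hr : Q ∣ r.comp f - X) (hr' : Q' ∣ r'.comp f - X) : ¬ P ∣ r - r' := by
  intro hd
  apply hne
  refine h.eq_of_rho h' hr ?_
  have h1 := (h'.ker _).2 hd
  rw [sub_comp] at h1
  have := dvd_add h1 hr'
  rwa [sub_add_sub_cancel] at this

/-- A root of `f(X) = t` modulo `P` gives a prime over `P`. -/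
theorem exists_one (mP : P.Monic) (iP : Irreducible P) {r : k[X]} (hr : P ∣ f.comp r - X) :
    ∃ Q, One f P Q ∧ Q ∣ r.comp f - X := by
  haveI : Fact (Irreducible P) := ⟨iP⟩
  haveI : Module.Finite k (AdjoinRoot P) := mP.finite_adjoinRoot
  set y : AdjoinRoot P := AdjoinRoot.mk P r with hy
  have hint : IsIntegral k y := Algebra.IsIntegral.isIntegral y
  have key : ∀ g : k[X], minpoly k y ∣ g ↔ P ∣ g.comp r := by
    intro g
    rw [minpoly.dvd_iff, ← AdjoinRoot.mk_eq_zero, hy, ← AdjoinRoot.aeval_eq (f := P) (p := r),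
      ← aeval_comp, AdjoinRoot.aeval_eq]
  have h1 : minpoly k y ∣ P.comp f := by
    rw [key, comp_assoc]
    have h2 : P ∣ P.comp (f.comp r) - P.comp X := hr.trans (comp_sub_dvd P)
    rw [comp_X] at h2
    have := dvd_add h2 (dvd_refl P)
    rwa [sub_add_cancel] at this
  have h2 := Pool.Agent.X261.TD.degree_dvd mP iP (minpoly.irreducible hint) h1
  have h3 : (minpoly k y).natDegree ≤ P.natDegree := by
    have h4 := minpoly.natDegree_le (A := k) y
    rwa [(AdjoinRoot.powerBasis iP.ne_zero).finrank, AdjoinRoot.powerBasis_dim] at h4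
  refine ⟨minpoly k y, ⟨mP, iP, minpoly.monic hint, minpoly.irreducible hint, h1, ?_⟩, ?_⟩
  · exact le_antisymm h3 (Nat.le_of_dvd (minpoly.natDegree_pos hint) h2)
  · rw [key, sub_comp, X_comp, comp_assoc]
    have h4 : P ∣ r.comp (f.comp r) - r.comp X := hr.trans (comp_sub_dvd r)
    rwa [comp_X] at h4

end gen

section fin

variable {k : Type} [Field k] [Fintype k] [DecidableEq k] {f P Q : k[X]}

/-- The symbol of a polynomial in `t`. -/
theorem One.lam_comp (hk : ringChar k ≠ 2) (h : One f P Q) (m : k[X]) :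
    lam (m.comp f) Q = lam m P := by
  by_cases hm : P ∣ m
  · rw [lam_zero_of h.iP hm, lam_zero_of h.iQ ((h.ker m).2 hm)]
  · have hm' : ¬ Q ∣ m.comp f := fun h' => hm ((h.ker m).1 h')
    have key : lam (m.comp f) Q = 1 ↔ lam m P = 1 := by
      rw [lam_irr hk h.mP h.iP hm, lam_irr hk h.mQ h.iQ hm']
      constructor
      · rintro ⟨z, hz⟩
        obtain ⟨s, hs⟩ := h.surj z
        refine ⟨s, ?_⟩
        rw [← h.ker, sub_comp, pow_comp]
        have h1 : s.comp f ^ 2 - m.comp f = (z ^ 2 - m.comp f) + (s.comp f - z) * (s.comp f + z) := by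
          ring
        rw [h1]
        exact dvd_add hz (hs.mul_right _)
      · rintro ⟨z, hz⟩
        refine ⟨z.comp f, ?_⟩
        have h1 := (h.ker _).2 hz
        rwa [sub_comp, pow_comp] at h1
    rcases lam_pm h.iP hm with h1 | h1 <;> rcases lam_pm h.iQ hm' with h2 | h2
    · rw [h1, h2]
    · rw [h1, h2] at key
      norm_num at key
    · rw [h1, h2] at key
      norm_num at key
    · rw [h1, h2]

/-- The symbol of any polynomial, in terms of the value of `x`. -/
theorem One.lam_rho (hk : ringChar k ≠ 2) (h : One f P Q) {r : k[X]} (hr : Q ∣ r.comp f - X)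
    (g : k[X]) : lam g Q = lam (g.comp r) P := by
  rw [← h.lam_comp hk, comp_assoc]
  have h1 : Q ∣ g.comp (r.comp f) - g.comp X := hr.trans (comp_sub_dvd g)
  rw [comp_X] at h1
  exact (lam_congr hk h.mQ h.iQ h1).symm

end fin

section cubic

variable {k : Type} [Field k] {f : k[X]}

/-- The discriminant of the quadratic polynomial `(f(X) - f(x)) / (X - x)`. -/
noncomputable def dlt (f : k[X]) : k[X] :=
  C (-3) * X ^ 2 - C (2 * f.coeff 2) * X + C (f.coeff 2 ^ 2 - 4 * f.coeff 1)

/-- The discriminant of `f(X) - t`. -/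
noncomputable def dsc (f : k[X]) : k[X] :=
  C (f.coeff 2 ^ 2 * f.coeff 1 ^ 2 - 4 * f.coeff 1 ^ 3) -
    C (4 * f.coeff 2 ^ 3) * (C (f.coeff 0) - X) - C 27 * (C (f.coeff 0) - X) ^ 2 +
    C (18 * f.coeff 2 * f.coeff 1) * (C (f.coeff 0) - X)

theorem cubic_eq (hm : f.Monic) (hd : f.natDegree = 3) :
    f = X ^ 3 + C (f.coeff 2) * X ^ 2 + C (f.coeff 1) * X + C (f.coeff 0) := by
  have h1 := f.as_sum_range_C_mul_X_pow
  rw [hd] at h1
  have h3 : f.coeff 3 = 1 := by
    have h5 : f.leadingCoeff = 1 := hm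
    rwa [leadingCoeff, hd] at h5
  conv_lhs => rw [h1]
  rw [Finset.sum_range_succ, Finset.sum_range_succ, Finset.sum_range_succ, Finset.sum_range_one,
    h3]
  simp
  ring

theorem cubic_comp (hm : f.Monic) (hd : f.natDegree = 3) (r : k[X]) :
    f.comp r = r ^ 3 + C (f.coeff 2) * r ^ 2 + C (f.coeff 1) * r + C (f.coeff 0) := by
  conv_lhs => rw [cubic_eq hm hd]
  simp

theorem cubic_deriv (hm : f.Monic) (hd : f.natDegree = 3) :
    derivative f = C 3 * X ^ 2 + C (2 * f.coeff 2) * X + C (f.coeff 1) := by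
  conv_lhs => rw [cubic_eq hm hd]
  simp only [derivative_add, derivative_C_mul, derivative_X_pow, derivative_X, derivative_C,
    map_mul, map_ofNat, Nat.cast_ofNat]
  norm_num
  ring

theorem cubic_deriv_comp (hm : f.Monic) (hd : f.natDegree = 3) (r : k[X]) :
    (derivative f).comp r = C 3 * r ^ 2 + C (2 * f.coeff 2) * r + C (f.coeff 1) := by
  rw [cubic_deriv hm hd]
  simp

theorem dlt_comp (r : k[X]) : (dlt f).comp r =
    C (-3) * r ^ 2 - C (2 * f.coeff 2) * r + C (f.coeff 2 ^ 2 - 4 * f.coeff 1) := by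
  unfold dlt
  simp

/-- The factorization of `f(r) - f(s)`. -/
theorem four_mul_diff (hm : f.Monic) (hd : f.natDegree = 3) (r s : k[X]) :
    4 * (f.comp r - f.comp s) = (r - s) * ((2 * r + s + C (f.coeff 2)) ^ 2 - (dlt f).comp s) := by
  rw [cubic_comp hm hd, cubic_comp hm hd, dlt_comp]
  simp only [map_sub, map_mul, map_pow, map_neg, map_ofNat]
  ring

theorem four_mul_deriv (hm : f.Monic) (hd : f.natDegree = 3) (s : k[X]) :
    4 * (derivative f).comp s = (3 * s + C (f.coeff 2)) ^ 2 - (dlt f).comp s := by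
  rw [cubic_deriv_comp hm hd, dlt_comp]
  simp only [map_sub, map_mul, map_pow, map_neg, map_ofNat]
  ring

theorem dsc_comp (hm : f.Monic) (hd : f.natDegree = 3) :
    (dsc f).comp f = derivative f ^ 2 * dlt f := by
  have h1 : (dsc f).comp f = C (f.coeff 2 ^ 2 * f.coeff 1 ^ 2 - 4 * f.coeff 1 ^ 3) -
    C (4 * f.coeff 2 ^ 3) * (C (f.coeff 0) - f) - C 27 * (C (f.coeff 0) - f) ^ 2 +
    C (18 * f.coeff 2 * f.coeff 1) * (C (f.coeff 0) - f) := by
    unfold dsc
    simp
  have h2 := cubic_eq hm hd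
  have e : C (f.coeff 0) - f = - (X ^ 3 + C (f.coeff 2) * X ^ 2 + C (f.coeff 1) * X) := by
    conv_lhs => rw [h2]
    simp
  rw [h1, e, cubic_deriv hm hd]
  unfold dlt
  simp only [map_sub, map_mul, map_pow, map_neg, map_ofNat]
  ring

theorem dlt_ne (hm : f.Monic) (hd : f.natDegree = 3) (h2 : (2 : k) ≠ 0)
    (hder : derivative f ≠ 0) : dlt f ≠ 0 := by
  intro h0
  apply hder
  have c1 : (dlt f).coeff 1 = 0 := by rw [h0, coeff_zero]
  have c2 : (dlt f).coeff 2 = 0 := by rw [h0, coeff_zero]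
  have c0 : (dlt f).coeff 0 = 0 := by rw [h0, coeff_zero]
  have e3 : (3 : k) = 0 := by
    have : (dlt f).coeff 2 = -3 := by
      unfold dlt
      simp only [coeff_add, coeff_sub, coeff_C_mul, coeff_X_pow, coeff_X, coeff_C]
      norm_num
    rw [this] at c2
    linear_combination -c2
  have e1 : 2 * f.coeff 2 = 0 := by
    have : (dlt f).coeff 1 = - (2 * f.coeff 2) := by
      unfold dlt
      simp only [coeff_add, coeff_sub, coeff_C_mul, coeff_X_pow, coeff_X, coeff_C]
      norm_num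
    rw [this] at c1
    linear_combination -c1
  have e2 : f.coeff 2 = 0 := by
    rcases mul_eq_zero.1 e1 with h | h
    · exact absurd h h2
    · exact h
  have e0 : f.coeff 2 ^ 2 - 4 * f.coeff 1 = 0 := by
    have : (dlt f).coeff 0 = f.coeff 2 ^ 2 - 4 * f.coeff 1 := by
      unfold dlt
      simp only [coeff_add, coeff_sub, coeff_C_mul, coeff_X_pow, coeff_X, coeff_C]
      norm_num
    rw [this] at c0
    exact c0
  have e4 : f.coeff 1 = 0 := by
    rw [e2] at e0
    have h4 : (4 : k) = 1 := by linear_combination e3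
    rw [h4] at e0
    linear_combination -e0
  rw [cubic_deriv hm hd, e3, e2, e4]
  simp

theorem dlt_deg : (dlt f).natDegree ≤ 2 := by
  unfold dlt
  compute_degree

end cubic

end Pool.Agent.H4.SA
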