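import Pool.Agent.H4.SA.Alt

/-!
# The symbols of the complementary factors and the signs at the split primes
-/

set_option autoImplicit false
set_option linter.all false

open Polynomial

namespace Pool.Agent.H4.SA

open Pool.Agent.H341R2.Sharp (lam)
open Pool.Agent.Y164.PS (lam_mem lam_eq_zero_iff lam_mul_left lam_irr Pr mem_Pr)
open Pool.Agent.X261.TD (ones)

open scoped Classical in
/-- The complementary factor of `v` in `P(f(x))`; it is one for `v = 1`. -/
noncomputable def zz {k : Type} [Field k] (f P v : k[X]) : k[X] :=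
  if v = 1 then 1 else P.comp f / v

/-- A polynomial `r` with `x = r(t)` modulo `Q`, if there is one. -/
noncomputable def rh {k : Type} [Field k] (f Q : k[X]) : k[X] :=
  Classical.epsilon fun r => Q ∣ r.comp f - X

section

variable {k : Type} [Field k] {f P Q : k[X]}

theorem zz_one : zz f P 1 = 1 := if_pos rfl

theorem One.ne_one (h : One f P Q) : Q ≠ 1 := fun h1 => h.iQ.not_isUnit (h1 ▸ isUnit_one)

theorem One.zz_mul (h : One f P Q) : P.comp f = Q * zz f P Q := by
  unfold zz
  rw [if_neg h.ne_one]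
  obtain ⟨R, hR⟩ := h.dvd
  rw [hR, mul_comm Q R, mul_div_cancel_right₀ _ h.iQ.ne_zero, mul_comm]

theorem One.rh_spec (h : One f P Q) : Q ∣ (rh f Q).comp f - X :=
  Classical.epsilon_spec (p := fun r : k[X] => Q ∣ r.comp f - X) (h.surj X)

theorem comp_monic (hf : Cub f) (hP : P.Monic) : (P.comp f).Monic :=
  hP.comp hf.mon (by rw [hf.deg]; norm_num)

theorem One.zz_monic (hf : Cub f) (h : One f P Q) : (zz f P Q).Monic :=
  Monic.of_mul_monic_left h.mQ (h.zz_mul ▸ comp_monic hf h.mP)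

theorem One.zz_ne (hf : Cub f) (h : One f P Q) : zz f P Q ≠ 0 := (h.zz_monic hf).ne_zero

theorem One.zz_deg (hf : Cub f) (h : One f P Q) : (zz f P Q).natDegree = 2 * P.natDegree := by
  have h1 := congrArg natDegree h.zz_mul
  rw [natDegree_comp, hf.deg, natDegree_mul h.iQ.ne_zero (h.zz_ne hf), h.deg] at h1
  omega

/-- Primes over different primes. -/
theorem not_dvd_of_ne {P' R : k[X]} (hP : P.Monic ∧ Irreducible P) (hP' : P'.Monic ∧ Irreducible P')
    (hne : P ≠ P') (hR : Irreducible R) (h : R ∣ P.comp f) : ¬ R ∣ P'.comp f := fun h' =>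
  hne (Pool.Agent.X261.TD.same_prime (f := f) hP hP' hR h h')

end

section fin

variable {k : Type} [Field k] [Fintype k] [DecidableEq k] {f P Q P' Q' : k[X]}

theorem ev_sq_add (n : ℕ) : Even (n * n + n) := by
  have : n * n + n = n * (n + 1) := by ring
  rw [this]
  exact Nat.even_mul_succ_self n

/-- The sign at a split prime. -/
noncomputable def eta (f P Q Q' : k[X]) : ℤ := lam Q Q' * lam (rh f Q - rh f Q') P

theorem One.lam_sub_comm (hk : ringChar k ≠ 2) (iP : Irreducible P) {a b : k[X]} (h : ¬ P ∣ a - b) :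
    lam (a - b) P = eps k ^ P.natDegree * lam (b - a) P := by
  have e : a - b = C (-1) * (b - a) := by simp
  have hne : b - a ≠ 0 := by
    intro h0
    apply h
    rw [e, h0, mul_zero]
    exact dvd_zero _
  rw [e, lam_mul_left (by simp) hne, lam_C]
  rfl

theorem eta_symm (hf : Cub f) (h : One f P Q) (h' : One f P Q') (hne : Q ≠ Q') :
    eta f P Q Q' = eta f P Q' Q := by
  unfold eta
  have h1 := h.rho_ne h' hne h.rh_spec h'.rh_spec
  rw [lam_rec Q Q', One.lam_sub_comm hf.rc h.iP h1, h.deg, h'.deg]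
  have h2 := eps_even (k := k) (ev_sq_add P.natDegree)
  rw [pow_add] at h2
  linear_combination (lam Q' Q * lam (rh f Q' - rh f Q) P) * h2

omit [Fintype k] [DecidableEq k] in
/-- The complementary factor at a split prime. -/
theorem zz_three (hf : Cub f) {Q1 Q2 Q3 : k[X]} (h1 : One f P Q1) (h2 : One f P Q2)
    (h3 : One f P Q3) (h12 : Q1 ≠ Q2) (h13 : Q1 ≠ Q3) (h23 : Q2 ≠ Q3) : zz f P Q1 = Q2 * Q3 := by
  have hc : IsCoprime Q2 Q3 := (h2.iQ.coprime_iff_not_dvd).2 fun hd =>
    h23 (eq_of_monic_of_associated h2.mQ h3.mQ (h2.iQ.associated_of_dvd h3.iQ hd))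
  have hd2 : Q2 ∣ zz f P Q1 := by
    have h := h2.dvd
    rw [h1.zz_mul] at h
    rcases h2.iQ.prime.dvd_or_dvd h with h | h
    · exact absurd (eq_of_monic_of_associated h2.mQ h1.mQ (h2.iQ.associated_of_dvd h1.iQ h))
        (Ne.symm h12)
    · exact h
  have hd3 : Q3 ∣ zz f P Q1 := by
    have h := h3.dvd
    rw [h1.zz_mul] at h
    rcases h3.iQ.prime.dvd_or_dvd h with h | h
    · exact absurd (eq_of_monic_of_associated h3.mQ h1.mQ (h3.iQ.associated_of_dvd h1.iQ h))
        (Ne.symm h13)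
    · exact h
  have hd := hc.mul_dvd hd2 hd3
  refine (eq_of_monic_of_associated (h2.mQ.mul h3.mQ) (h1.zz_monic hf) ?_).symm
  obtain ⟨c, hc'⟩ := hd
  have hc0 : c ≠ 0 := by
    rintro rfl
    rw [mul_zero] at hc'
    exact h1.zz_ne hf hc'
  have hdeg := congrArg natDegree hc'
  rw [h1.zz_deg hf, natDegree_mul (mul_ne_zero h2.iQ.ne_zero h3.iQ.ne_zero) hc0,
    natDegree_mul h2.iQ.ne_zero h3.iQ.ne_zero, h2.deg, h3.deg] at hdeg
  have hcu : IsUnit c := by
    rw [isUnit_iff_degree_eq_zero, degree_eq_natDegree hc0]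
    have : c.natDegree = 0 := by omega
    rw [this]
    rfl
  obtain ⟨u, hu⟩ := hcu
  exact ⟨u, by rw [hu, ← hc']⟩

/-- For three primes over `P` the signs are the same. -/
theorem eta_eq (hf : Cub f) (hP : Gd f P) {Q1 Q2 Q3 : k[X]} (h1 : One f P Q1) (h2 : One f P Q2)
    (h3 : One f P Q3) (h12 : Q1 ≠ Q2) (h13 : Q1 ≠ Q3) (h23 : Q2 ≠ Q3) :
    eta f P Q1 Q2 = eta f P Q1 Q3 := by
  have e1 : zz f P Q1 = Q2 * Q3 := zz_three hf h1 h2 h3 h12 h13 h23
  -- the values at the roots
  set r1 := rh f Q1 with hr1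
  set r2 := rh f Q2 with hr2
  set r3 := rh f Q3 with hr3
  have s1 := h1.rh_spec
  have s2 := h2.rh_spec
  have s3 := h3.rh_spec
  rw [← hr1] at s1
  rw [← hr2] at s2
  rw [← hr3] at s3
  have q2 := quad_of_ne hf h1 h2 h12 s1 s2
  have q3 := quad_of_ne hf h1 h3 h13 s1 s3
  have n12 := h1.rho_ne h2 h12 s1 s2
  have n13 := h1.rho_ne h3 h13 s1 s3
  have n23 := h2.rho_ne h3 h23 s2 s3
  have hsum : P ∣ r1 + r2 + r3 + C (f.coeff 2) := by
    have h4 : P ∣ 4 * ((r2 - r3) * (r1 + r2 + r3 + C (f.coeff 2))) := by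
      have := dvd_sub q2 q3
      have e : (2 * r2 + r1 + C (f.coeff 2)) ^ 2 - (dlt f).comp r1 -
          ((2 * r3 + r1 + C (f.coeff 2)) ^ 2 - (dlt f).comp r1) =
          4 * ((r2 - r3) * (r1 + r2 + r3 + C (f.coeff 2))) := by ring
      rwa [e] at this
    rcases h1.iP.prime.dvd_or_dvd h4 with h5 | h5
    · exact absurd h5 (four_ndvd hf.two h1.iP)
    · rcases h1.iP.prime.dvd_or_dvd h5 with h6 | h6
      · exact absurd h6 n23
      · exact h6
  have hder : P ∣ (derivative f).comp r1 - (r1 - r2) * (r1 - r3) := by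
    have h4 : P ∣ 4 * ((derivative f).comp r1 - (r1 - r2) * (r1 - r3)) := by
      have e : 4 * ((derivative f).comp r1 - (r1 - r2) * (r1 - r3)) =
          ((2 * r2 + r1 + C (f.coeff 2)) ^ 2 - (dlt f).comp r1) +
            (4 * (r1 - r2)) * (r1 + r2 + r3 + C (f.coeff 2)) := by
        rw [mul_sub, four_mul_deriv hf.mon hf.deg]
        ring
      rw [e]
      exact dvd_add q2 (hsum.mul_left _)
    rcases h1.iP.prime.dvd_or_dvd h4 with h5 | h5
    · exact absurd h5 (four_ndvd hf.two h1.iP)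
    · exact h5
  have nz : ∀ {g R : k[X]}, ¬ R ∣ g → g ≠ 0 := fun {g R} hg h0 => hg (h0 ▸ dvd_zero _)
  have key := lam_compl hf hP h1 h1.zz_mul
  rw [h1.lam_rho hf.rc s1 (derivative f), lam_congr hf.rc h1.mP h1.iP hder,
    lam_mul_left (nz n12) (nz n13), e1, lam_mul_left h2.iQ.ne_zero h3.iQ.ne_zero] at key
  unfold eta
  rw [← hr1, ← hr2, ← hr3]
  have r12 := lam_rec Q1 Q2
  have r13 := lam_rec Q1 Q3
  rw [h1.deg, h2.deg] at r12
  rw [h1.deg, h3.deg] at r13
  have nd : ∀ {A B : k[X]}, One f P A → One f P B → A ≠ B → ¬ B ∣ A := by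
    intro A B hA hB hne hd
    exact hne (eq_of_monic_of_associated hA.mQ hB.mQ (hB.iQ.associated_of_dvd hA.iQ hd).symm)
  have p12 := lam_self_mul h2.iQ (nd h1 h2 h12)
  have p13 := lam_self_mul h3.iQ (nd h1 h3 h13)
  have l12 := lam_self_mul h1.iP n12
  have l13 := lam_self_mul h1.iP n13
  have ee := eps_even (k := k) (⟨P.natDegree * P.natDegree, rfl⟩ :
    Even (P.natDegree * P.natDegree + P.natDegree * P.natDegree))
  rw [pow_add] at ee
  -- `A B = x y` with all of them signs
  generalize lam Q1 Q2 = A at *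
  generalize lam Q1 Q3 = B at *
  generalize lam (r1 - r2) P = x at *
  generalize lam (r1 - r3) P = y at *
  generalize lam Q2 Q1 = a at *
  generalize lam Q3 Q1 = b at *
  generalize eps k ^ (P.natDegree * P.natDegree) = e at *
  subst r12 r13
  have h5 : e * a * (e * b) = x * y := by
    rw [← key]
    linear_combination (a * b) * ee
  -- multiply
  have h6 : (e * a * x) * (e * b * y) = 1 := by
    have : (e * a * x) * (e * b * y) = (e * a * (e * b)) * (x * y) := by ring
    rw [this, h5]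
    linear_combination (y * y) * l12 + l13
  have h7 : (e * b * y) * (e * b * y) = 1 := by
    have : (e * b * y) * (e * b * y) = (e * b * (e * b)) * (y * y) := by ring
    rw [this, p13, l13, one_mul]
  have h8 : e * b * y ≠ 0 := fun h0 => by rw [h0, mul_zero] at h7; exact zero_ne_one h7
  exact mul_right_cancel₀ h8 (h6.trans h7.symm)

end fin

end Pool.Agent.H4.SA
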