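import Pool.Agent.H4.SA.Deg1

/-!
# The primes at which `f(X) - t` has good reduction
-/

set_option autoImplicit false
set_option linter.all false

open Polynomial

namespace Pool.Agent.H4.SA

open Pool.Agent.H341R2.Sharp (lam)
open Pool.Agent.Y164.PS (lam_mem lam_eq_zero_iff lam_mul_left lam_irr Pr mem_Pr)
open Pool.Agent.X261.TD (ones)
open Pool.Agent.TH943.HJ (primes mem_primes)

/-- The primes `P` of `k[t]` which are unramified in `k[x]`. -/
structure Gd {k : Type} [Field k] (f P : k[X]) : Prop where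
  mP : P.Monic
  iP : Irreducible P
  sq : Squarefree (P.comp f)

/-- The conditions on `f`. -/
structure Cub {k : Type} [Field k] (f : k[X]) : Prop where
  two : (2 : k) ≠ 0
  mon : f.Monic
  deg : f.natDegree = 3
  der : derivative f ≠ 0

section

variable {k : Type} [Field k] [Fintype k] [DecidableEq k] {f P Q : k[X]}

omit [Fintype k] [DecidableEq k] in
theorem ringChar_ne (h2 : (2 : k) ≠ 0) : ringChar k ≠ 2 := by
  intro h
  apply h2
  have h1 := ringChar.Nat.cast_ringChar (R := k)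
  rw [h] at h1
  exact_mod_cast h1

omit [Fintype k] [DecidableEq k] in
theorem Cub.rc (hf : Cub f) : ringChar k ≠ 2 := ringChar_ne hf.two

omit [Fintype k] [DecidableEq k] in
theorem two_ndvd (h2 : (2 : k) ≠ 0) (iP : Irreducible P) : ¬ P ∣ 2 := by
  intro h
  apply iP.not_isUnit
  refine isUnit_of_dvd_unit h ?_
  have : (2 : k[X]) = C 2 := (map_ofNat C 2).symm
  rw [this]
  exact isUnit_C.2 (isUnit_iff_ne_zero.2 h2)

omit [Fintype k] [DecidableEq k] in
theorem four_ndvd (h2 : (2 : k) ≠ 0) (iP : Irreducible P) : ¬ P ∣ 4 := by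
  intro h
  have e : (4 : k[X]) = 2 * 2 := by norm_num
  rw [e] at h
  rcases iP.prime.dvd_or_dvd h with h | h <;> exact two_ndvd h2 iP h

omit [DecidableEq k] in
theorem Gd.not_deriv (hP : Gd f P) (iQ : Irreducible Q) (hQ : Q ∣ P.comp f) :
    ¬ Q ∣ derivative f := by
  intro hd
  obtain ⟨R, hR⟩ := hQ
  have h1 : Q ∣ derivative (P.comp f) := by
    rw [derivative_comp]
    exact hd.mul_right _
  rw [hR, derivative_mul] at h1
  have h2 : Q ∣ derivative Q * R := by
    have := dvd_sub h1 (dvd_mul_right Q (derivative R))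
    rwa [add_sub_cancel_right] at this
  rcases iQ.prime.dvd_or_dvd h2 with h3 | h3
  · have hs : Q.Separable := PerfectField.separable_of_irreducible iQ
    exact iQ.not_isUnit (hs.isUnit_of_dvd' dvd_rfl h3)
  · have h4 : Q * Q ∣ P.comp f := by
      rw [hR]
      exact mul_dvd_mul dvd_rfl h3
    exact iQ.not_isUnit (hP.sq Q h4)

omit [DecidableEq k] in
theorem Gd.cop_deriv (hf : Cub f) (hP : Gd f P) : IsCoprime (P.comp f) (derivative f) := by
  have h0 : P.comp f ≠ 0 := Pool.Agent.X261.TD.comp_ne hf.deg hP.iP.ne_zero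
  refine isCoprime_of_prime_dvd (fun h => h0 h.1) fun Q hQ h1 h2 => ?_
  exact hP.not_deriv hQ.irreducible h1 h2

omit [DecidableEq k] in
theorem Gd.not_dlt (hf : Cub f) (hP : Gd f P) (iQ : Irreducible Q) (hQ : Q ∣ P.comp f) :
    ¬ Q ∣ dlt f := by
  intro hd
  have h1 : Q ∣ (dsc f).comp f := by
    rw [dsc_comp hf.mon hf.deg]
    exact hd.mul_left _
  have h2 : P ∣ dsc f := by
    by_contra hnd
    obtain ⟨a, b, hab⟩ := (hP.iP.coprime_iff_not_dvd).2 hnd
    have h3 := congrArg (fun g : k[X] => g.comp f) hab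
    simp only [add_comp, mul_comp, one_comp] at h3
    exact iQ.not_isUnit (isUnit_of_dvd_one (h3 ▸ dvd_add (hQ.mul_left _) (h1.mul_left _)))
  have h3 : P.comp f ∣ derivative f ^ 2 * dlt f := by
    rw [← dsc_comp hf.mon hf.deg]
    obtain ⟨R, hR⟩ := h2
    rw [hR, mul_comp]
    exact dvd_mul_right _ _
  have h4 : P.comp f ∣ dlt f := ((hP.cop_deriv hf).pow_right).dvd_of_dvd_mul_left h3
  have h5 := natDegree_le_of_dvd h4 (dlt_ne hf.mon hf.deg hf.two hf.der)
  rw [natDegree_comp, hf.deg] at h5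
  have h6 := dlt_deg (f := f)
  have h7 := hP.iP.natDegree_pos
  omega

omit [Fintype k] [DecidableEq k] in
theorem mem_ones (hf : Cub f) (mP : P.Monic) (iP : Irreducible P) : Q ∈ ones f P ↔ One f P Q := by
  unfold ones
  rw [Finset.mem_filter, mem_primes (Pool.Agent.X261.TD.comp_ne hf.deg iP.ne_zero)]
  constructor
  · rintro ⟨⟨h1, h2, h3⟩, h4⟩
    exact ⟨mP, iP, h1, h2, h3, h4⟩
  · intro h
    exact ⟨⟨h.mQ, h.iQ, h.dvd⟩, h.deg⟩

omit [Fintype k] [DecidableEq k] in
theorem card_ones_le (hf : Cub f) (iP : Irreducible P) : (ones f P).card ≤ 3 := by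
  have h1 := Pool.Agent.X261.TD.sum_degree (f := f) hf.deg iP.ne_zero
  have h2 : (ones f P).card * P.natDegree ≤ ∑ R ∈ primes (P.comp f), R.natDegree := by
    have h3 : ∑ R ∈ ones f P, R.natDegree = (ones f P).card * P.natDegree := by
      have h4 : ∀ R ∈ ones f P, R.natDegree = P.natDegree := fun R hR => (Finset.mem_filter.1 hR).2
      rw [Finset.sum_congr rfl h4, Finset.sum_const, smul_eq_mul]
    rw [← h3]
    exact Finset.sum_le_sum_of_subset (Finset.filter_subset _ _)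
  have h4 := iP.natDegree_pos
  have h5 := h2.trans h1
  exact Nat.le_of_mul_le_mul_right h5 h4

/-- The quadratic factor. -/
theorem quad_of_ne {Q' : k[X]} (hf : Cub f) (h : One f P Q) (h' : One f P Q') (hne : Q ≠ Q')
    {r r' : k[X]} (hr : Q ∣ r.comp f - X) (hr' : Q' ∣ r'.comp f - X) :
    P ∣ (2 * r' + r + C (f.coeff 2)) ^ 2 - (dlt f).comp r := by
  have h1 : P ∣ f.comp r - X := by
    rw [← h.ker, sub_comp, X_comp, comp_assoc]
    have h1 : Q ∣ f.comp (r.comp f) - f.comp X := hr.trans (comp_sub_dvd f)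
    rwa [comp_X] at h1
  have h2 : P ∣ f.comp r' - X := by
    rw [← h'.ker, sub_comp, X_comp, comp_assoc]
    have h1 : Q' ∣ f.comp (r'.comp f) - f.comp X := hr'.trans (comp_sub_dvd f)
    rwa [comp_X] at h1
  have h3 : P ∣ 4 * (f.comp r' - f.comp r) := by
    have := dvd_sub h2 h1
    rw [sub_sub_sub_cancel_right] at this
    exact this.mul_left _
  rw [four_mul_diff hf.mon hf.deg] at h3
  rcases h.iP.prime.dvd_or_dvd h3 with h4 | h4
  · exact absurd h4 (h'.rho_ne h (Ne.symm hne) hr' hr)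
  · exact h4

theorem lam_dlt_of_ne {Q' : k[X]} (hf : Cub f) (hP : Gd f P) (h : One f P Q) (h' : One f P Q')
    (hne : Q ≠ Q') : lam (dlt f) Q = 1 := by
  have h1 := quad_of_ne hf h h' hne h.rho_spec h'.rho_spec
  rw [lam_irr hf.rc h.mQ h.iQ (hP.not_dlt hf h.iQ h.dvd)]
  refine ⟨(2 * h'.rho + h.rho + C (f.coeff 2)).comp f, ?_⟩
  have h2 := (h.ker _).2 h1
  rw [sub_comp, pow_comp, comp_assoc] at h2
  have h3 : Q ∣ (dlt f).comp (h.rho.comp f) - (dlt f).comp X := h.rho_spec.trans (comp_sub_dvd _)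
  rw [comp_X] at h3
  have := dvd_add h2 h3
  rwa [sub_add_sub_cancel] at this

theorem three_of_sq (hf : Cub f) (hP : Gd f P) (h : One f P Q) (h1 : lam (dlt f) Q = 1) :
    ∃ Q1 Q2, One f P Q1 ∧ One f P Q2 ∧ Q ≠ Q1 ∧ Q ≠ Q2 ∧ Q1 ≠ Q2 := by
  rw [h.lam_rho hf.rc h.rho_spec] at h1
  have hnd : ¬ P ∣ (dlt f).comp h.rho := by
    rw [← h.dvd_iff h.rho_spec]
    exact hP.not_dlt hf h.iQ h.dvd
  rw [lam_irr hf.rc h.mP h.iP hnd] at h1
  obtain ⟨s, hs⟩ := h1
  set ρ := h.rho with hρ
  have hh : (2 : k[X]) * C (1 / 2) = 1 := by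
    have e : (2 : k[X]) = C 2 := (map_ofNat C 2).symm
    rw [e, ← C_mul, mul_one_div_cancel hf.two, C_1]
  have key : ∀ e : k[X], e ^ 2 = 1 → P ∣ f.comp (C (1 / 2) * (e * s - ρ - C (f.coeff 2))) - X := by
    intro e he
    set r := C (1 / 2) * (e * s - ρ - C (f.coeff 2)) with hr
    have h2r : 2 * r + ρ + C (f.coeff 2) = e * s := by
      rw [hr, ← mul_assoc, hh]
      ring
    have h2 : P ∣ 4 * (f.comp r - f.comp ρ) := by
      rw [four_mul_diff hf.mon hf.deg, h2r, mul_pow, he, one_mul]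
      exact hs.mul_left _
    rcases h.iP.prime.dvd_or_dvd h2 with h3 | h3
    · exact absurd h3 (four_ndvd hf.two h.iP)
    · have := dvd_add h3 h.f_rho
      rwa [sub_add_sub_cancel] at this
  have hsn : ¬ P ∣ s := by
    intro h'
    apply hnd
    have := dvd_sub (h'.mul_left s) hs
    have e : s * s - (s ^ 2 - (dlt f).comp ρ) = (dlt f).comp ρ := by ring
    rwa [e] at this
  have hder : ¬ P ∣ (derivative f).comp ρ := by
    rw [← h.dvd_iff h.rho_spec]
    exact hP.not_deriv h.iQ h.dvd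
  obtain ⟨Q1, h1, hr1⟩ := exists_one h.mP h.iP (key 1 (one_pow 2))
  obtain ⟨Q2, h2, hr2⟩ := exists_one h.mP h.iP (key (-1) (by norm_num))
  have hneq : ∀ e : k[X], e ^ 2 = 1 → ∀ Q', One f P Q' →
      Q' ∣ (C (1 / 2) * (e * s - ρ - C (f.coeff 2))).comp f - X → Q ≠ Q' := by
    intro e he Q' hQ' hr' hEq
    subst hEq
    have h3 := h.rho_unique h.rho_spec hr'
    rw [← hρ] at h3
    set r := C (1 / 2) * (e * s - ρ - C (f.coeff 2)) with hr
    have h2r : 2 * r + ρ + C (f.coeff 2) = e * s := by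
      rw [hr, ← mul_assoc, hh]
      ring
    apply hder
    have h4 : P ∣ 4 * (derivative f).comp ρ := by
      rw [four_mul_deriv hf.mon hf.deg]
      have e1 : (3 * ρ + C (f.coeff 2)) ^ 2 - (dlt f).comp ρ =
          (s ^ 2 - (dlt f).comp ρ) + (ρ - r) * (2 * (3 * ρ + C (f.coeff 2) + (2 * r + ρ + C (f.coeff 2)))) +
            ((2 * r + ρ + C (f.coeff 2)) ^ 2 - s ^ 2) := by ring
      rw [e1, h2r, mul_pow, he, one_mul, sub_self, add_zero]
      exact dvd_add hs (h3.mul_right _)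
    rcases h.iP.prime.dvd_or_dvd h4 with h5 | h5
    · exact absurd h5 (four_ndvd hf.two h.iP)
    · exact h5
  refine ⟨Q1, Q2, h1, h2, hneq 1 (one_pow 2) Q1 h1 hr1, hneq (-1) (by norm_num) Q2 h2 hr2, ?_⟩
  intro hEq
  subst hEq
  have h3 := h1.rho_unique hr1 hr2
  have e : C (1 / 2) * (1 * s - ρ - C (f.coeff 2)) - C (1 / 2) * (-1 * s - ρ - C (f.coeff 2)) =
      (2 * C (1 / 2)) * s := by ring
  rw [e, hh, one_mul] at h3
  exact hsn h3

/-- The number of the primes of degree one over `P`, if there is one. -/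
theorem card_ones (hf : Cub f) (hP : Gd f P) (h : One f P Q) :
    (lam (dlt f) Q = 1 ∧ (ones f P).card = 3) ∨ (lam (dlt f) Q = -1 ∧ (ones f P).card = 1) := by
  classical
  have hm : ∀ R, R ∈ ones f P ↔ One f P R := fun R => mem_ones hf h.mP h.iP
  rcases lam_pm h.iQ (hP.not_dlt hf h.iQ h.dvd) with h1 | h1
  · left
    refine ⟨h1, le_antisymm (card_ones_le hf h.iP) ?_⟩
    obtain ⟨Q1, Q2, hQ1, hQ2, n1, n2, n3⟩ := three_of_sq hf hP h h1
    have hs : ({Q, Q1, Q2} : Finset k[X]) ⊆ ones f P := by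
      intro R hR
      simp only [Finset.mem_insert, Finset.mem_singleton] at hR
      rcases hR with rfl | rfl | rfl
      · exact (hm _).2 h
      · exact (hm _).2 hQ1
      · exact (hm _).2 hQ2
    have h3 := Finset.card_le_card hs
    rwa [Finset.card_insert_of_notMem (by simp [n1, n2]), Finset.card_insert_of_notMem (by simp [n3]),
      Finset.card_singleton] at h3
  · right
    refine ⟨h1, ?_⟩
    rw [Finset.card_eq_one]
    refine ⟨Q, ?_⟩
    ext R
    rw [hm, Finset.mem_singleton]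
    constructor
    · intro hR
      by_contra hne
      have := lam_dlt_of_ne hf hP h hR (Ne.symm hne)
      rw [this] at h1
      norm_num at h1
    · rintro rfl
      exact h

end

end Pool.Agent.H4.SA
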