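import Mathlib
import Pool.Graph.R_seed8.Y164.PS.Chr

/-!
# The quadratic symbol of two polynomials over a finite field
-/

set_option autoImplicit false

open Polynomial

namespace Pool.Agent.H4.SA

open Pool.Agent.H341R2.Sharp (lam)
open Pool.Agent.Y164.PS (lam_mem lam_eq_zero_iff lam_mul_left lam_irr Pr mem_Pr)

variable {k : Type} [Field k] [Fintype k] [DecidableEq k]

/-- The value of the quadratic character at `-1`. -/
noncomputable def eps (k : Type) [Field k] [Fintype k] [DecidableEq k] : ℤ := quadraticChar k (-1)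

theorem eps_sq : eps k * eps k = 1 := by
  unfold eps
  rw [← map_mul, neg_one_mul, neg_neg, map_one]

theorem eps_even {n : ℕ} (h : Even n) : eps k ^ n = 1 := by
  obtain ⟨m, rfl⟩ := h
  rw [← two_mul, pow_mul, pow_two, eps_sq, one_pow]

theorem eps_cases : eps k = 1 ∨ eps k = -1 := by
  unfold eps
  exact quadraticChar_dichotomy (by simp)

theorem eps_pow_cases (n : ℕ) : eps k ^ n = 1 ∨ eps k ^ n = -1 := by
  rcases eps_cases (k := k) with h | h
  · left; rw [h, one_pow]
  · rw [h]; exact neg_one_pow_eq_or ℤ n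

/-- The law of reciprocity. -/
theorem lam_rec (f g : k[X]) : lam f g = eps k ^ (f.natDegree * g.natDegree) * lam g f := by
  unfold lam eps
  rw [resultant_comm, map_mul, map_pow, mul_comm g.natDegree]

theorem lam_rec_even {f g : k[X]} (h : Even (f.natDegree * g.natDegree)) : lam f g = lam g f := by
  rw [lam_rec, eps_even h, one_mul]

theorem lam_ne {P f : k[X]} (hP : Irreducible P) (h : ¬ P ∣ f) : lam f P ≠ 0 := fun h0 =>
  (lam_eq_zero_iff hP.ne_zero).1 h0 ((hP.coprime_iff_not_dvd).2 h).symm

theorem lam_zero_of {P f : k[X]} (hP : Irreducible P) (h : P ∣ f) : lam f P = 0 := by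
  rw [lam_eq_zero_iff hP.ne_zero]
  intro hc
  exact hP.not_isUnit (hc.isUnit_of_dvd' h dvd_rfl)

theorem lam_pm {P f : k[X]} (hP : Irreducible P) (h : ¬ P ∣ f) : lam f P = 1 ∨ lam f P = -1 := by
  rcases lam_mem f P with h1 | h1 | h1
  · exact absurd h1 (lam_ne hP h)
  · exact Or.inl h1
  · exact Or.inr h1

theorem lam_self_mul {P f : k[X]} (hP : Irreducible P) (h : ¬ P ∣ f) : lam f P * lam f P = 1 := by
  rcases lam_pm hP h with h1 | h1 <;> rw [h1] <;> norm_num

theorem lam_congr (hk : ringChar k ≠ 2) {P f g : k[X]} (hP : P.Monic) (hi : Irreducible P)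
    (h : P ∣ f - g) : lam f P = lam g P := by
  by_cases hf : P ∣ f
  · have hg : P ∣ g := by
      have := dvd_sub hf h
      rwa [sub_sub_cancel] at this
    rw [lam_zero_of hi hf, lam_zero_of hi hg]
  · have hg : ¬ P ∣ g := by
      intro hg
      apply hf
      have := dvd_add h hg
      rwa [sub_add_cancel] at this
    have key : lam f P = 1 ↔ lam g P = 1 := by
      rw [lam_irr hk hP hi hf, lam_irr hk hP hi hg]
      constructor
      · rintro ⟨z, hz⟩
        refine ⟨z, ?_⟩
        have := dvd_add hz h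
        rwa [sub_add_sub_cancel] at this
      · rintro ⟨z, hz⟩
        refine ⟨z, ?_⟩
        have := dvd_sub hz h
        have e : z ^ 2 - g - (f - g) = z ^ 2 - f := by ring
        rwa [e] at this
    rcases lam_pm hi hf with h1 | h1 <;> rcases lam_pm hi hg with h2 | h2
    · rw [h1, h2]
    · rw [h1, h2] at key
      norm_num at key
    · rw [h1, h2] at key
      norm_num at key
    · rw [h1, h2]

/-- If `g = c ^ 2 f` modulo `P`, the symbols are equal. -/
theorem lam_congr_sq (hk : ringChar k ≠ 2) {P f g c : k[X]} (hP : P.Monic) (hi : Irreducible P)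
    (h : P ∣ f - c ^ 2 * g) (hf : ¬ P ∣ f) : lam f P = lam g P := by
  rw [lam_congr hk hP hi h]
  have hcg : ¬ P ∣ c ^ 2 * g := by
    intro h'
    apply hf
    have := dvd_add h h'
    rwa [sub_add_cancel] at this
  have hc : ¬ P ∣ c := fun h' => hcg (Dvd.dvd.mul_right (h'.trans (dvd_pow_self c two_ne_zero)) _)
  have hc0 : c ≠ 0 := by rintro rfl; exact hc (dvd_zero _)
  have hg0 : g ≠ 0 := by rintro rfl; exact hcg (by simp)
  rw [lam_mul_left (pow_ne_zero 2 hc0) hg0, pow_two, lam_mul_left hc0 hc0, lam_self_mul hi hc,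
    one_mul]

theorem lam_prod_left {α : Type*} (s : Finset α) (f : α → k[X]) (hf : ∀ a ∈ s, f a ≠ 0) (g : k[X]) :
    lam (∏ a ∈ s, f a) g = ∏ a ∈ s, lam (f a) g := by
  classical
  induction s using Finset.induction_on with
  | empty => rw [Finset.prod_empty, Finset.prod_empty, Pool.Agent.Y164.PS.lam_one_left]
  | insert a s ha ih =>
    rw [Finset.prod_insert ha, Finset.prod_insert ha, lam_mul_left (hf a (by simp))
      (Finset.prod_ne_zero_iff.2 fun b hb => hf b (by simp [hb])),
      ih (fun b hb => hf b (by simp [hb]))]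

theorem lam_C {c : k} (g : k[X]) : lam (C c) g = quadraticChar k c ^ g.natDegree := by
  unfold lam
  rw [natDegree_C, resultant_zero_right_deg, map_pow]
  simp

end Pool.Agent.H4.SA
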