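import Pool.Agent.H4.SA.Sig

/-!
# The sum of the signs, and its residue modulo three
-/

set_option autoImplicit false
set_option linter.all false

open Polynomial
open scoped Classical

namespace Pool.Agent.H4.SA

open Pool.Agent.H341R2.Sharp (lam)
open Pool.Agent.Y164.PS (lam_mem lam_eq_zero_iff lam_mul_left lam_irr Pr mem_Pr)
open Pool.Agent.X261.TD (ones)

/-- A sum over a finite set with a permutation of order three with one fixed point. -/
theorem mod_three {α : Type*} (ρ : α → α) (F : α → ℤ) (a0 : α) :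
    ∀ s : Finset α, (∀ a ∈ s, ρ a ∈ s) → (∀ a ∈ s, ρ (ρ (ρ a)) = a) → (∀ a ∈ s, F (ρ a) = F a) →
      a0 ∈ s → (∀ a ∈ s, ρ a = a ↔ a = a0) → (3 : ℤ) ∣ ∑ a ∈ s, F a - F a0 := by
  intro s
  induction s using Finset.strongInduction with
  | H s ih =>
    intro hs h3 hF h0 hfix
    by_cases hall : ∀ a ∈ s, a = a0
    · have e : s = {a0} := by
        ext a
        rw [Finset.mem_singleton]
        exact ⟨hall a, fun h => h ▸ h0⟩
      rw [e, Finset.sum_singleton, sub_self]
      exact dvd_zero _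
    · push Not at hall
      obtain ⟨a, ha, hne⟩ := hall
      have hb := hs a ha
      have hc := hs _ hb
      have n1 : ρ a ≠ a := fun h => hne ((hfix a ha).1 h)
      have n2 : ρ (ρ a) ≠ ρ a := by
        intro h
        apply n1
        have h4 := h3 a ha
        rw [h] at h4
        rw [h] at h4
        exact h4
      have n3 : ρ (ρ a) ≠ a := by
        intro h
        have h4 := h3 a ha
        rw [h] at h4
        exact n1 h4
      set t : Finset α := {a, ρ a, ρ (ρ a)} with ht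
      have hts : t ⊆ s := by
        intro x hx
        rw [ht] at hx
        simp only [Finset.mem_insert, Finset.mem_singleton] at hx
        rcases hx with rfl | rfl | rfl
        · exact ha
        · exact hb
        · exact hc
      have hmt : ∀ x, x ∈ t ↔ x = a ∨ x = ρ a ∨ x = ρ (ρ a) := fun x => by
        rw [ht]
        simp only [Finset.mem_insert, Finset.mem_singleton]
      have hat : a ∈ t := (hmt a).2 (Or.inl rfl)
      have h0t : a0 ∉ t := by
        intro h
        have hf0 := (hfix a0 h0).2 rfl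
        rcases (hmt a0).1 h with h | h | h
        · exact hne h.symm
        · have h5 := (hfix (ρ a) hb).2 h.symm
          exact n2 h5
        · have h5 := (hfix _ hc).2 h.symm
          rw [h3 a ha] at h5
          exact n3 h5.symm
      have hlt : s \ t ⊂ s := by
        refine Finset.ssubset_iff_subset_ne.2 ⟨Finset.sdiff_subset, fun h => ?_⟩
        have h5 : a ∈ s \ t := h.symm ▸ ha
        exact (Finset.mem_sdiff.1 h5).2 hat
      have h6 := ih (s \ t) hlt (fun x hx => by
        rw [Finset.mem_sdiff] at hx ⊢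
        refine ⟨hs x hx.1, fun h => hx.2 ?_⟩
        rw [hmt] at h ⊢
        rcases h with h | h | h
        · right; right
          rw [← h, h3 x hx.1]
        · left
          have h9 : ρ (ρ (ρ x)) = ρ (ρ (ρ a)) := congrArg (fun y => ρ (ρ y)) h
          rw [h3 x hx.1, h3 a ha] at h9
          exact h9
        · right; left
          have h9 : ρ (ρ (ρ x)) = ρ (ρ (ρ (ρ a))) := congrArg (fun y => ρ (ρ y)) h
          rw [h3 x hx.1, h3 a ha] at h9
          exact h9)
        (fun x hx => h3 x (Finset.mem_sdiff.1 hx).1) (fun x hx => hF x (Finset.mem_sdiff.1 hx).1)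
        (Finset.mem_sdiff.2 ⟨h0, h0t⟩) (fun x hx => hfix x (Finset.mem_sdiff.1 hx).1)
      have h7 : ∑ x ∈ t, F x = 3 * F a := by
        rw [ht, Finset.sum_insert (by simp [Ne.symm n1, Ne.symm n3]),
          Finset.sum_insert (by simp [Ne.symm n2]), Finset.sum_singleton, hF _ hb, hF _ ha]
        ring
      have h8 := Finset.sum_sdiff (f := F) hts
      rw [← h8, h7]
      obtain ⟨c, hc'⟩ := h6
      exact ⟨c + F a, by linear_combination hc'⟩

/-- The sum of two colours. -/
noncomputable def addc {k : Type} [Field k] (f P v w : k[X]) : k[X] :=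
  if v = 1 then w else if w = 1 then v else if v = w then 1 else P.comp f / (v * w)

/-- The symbol of two colours. -/
noncomputable def bb {k : Type} [Field k] [Fintype k] [DecidableEq k] (f P v w : k[X]) : ℤ :=
  if w = 1 then 1 else lam (zz f P v) w

section fin

variable {k : Type} [Field k] [Fintype k] [DecidableEq k] {f P Q P' Q' : k[X]}

omit [Fintype k] [DecidableEq k] in
theorem addc_third (hf : Cub f) {Q1 Q2 Q3 : k[X]} (h1 : One f P Q1) (h2 : One f P Q2)
    (h3 : One f P Q3) (h12 : Q1 ≠ Q2) (h13 : Q1 ≠ Q3) (h23 : Q2 ≠ Q3) : addc f P Q1 Q2 = Q3 := by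
  unfold addc
  rw [if_neg h1.ne_one, if_neg h2.ne_one, if_neg h12, h3.zz_mul,
    zz_three hf h3 h1 h2 (Ne.symm h13) (Ne.symm h23) h12,
    mul_div_cancel_right₀ _ (mul_ne_zero h1.iQ.ne_zero h2.iQ.ne_zero)]

/-- The possible pairs of colours. -/
theorem pair_cases (hf : Cub f) (hP : Gd f P) {v w : k[X]} (hv : v ∈ VV f P) (hw : w ∈ VV f P) :
    (v = 1 ∧ w = 1) ∨ (v = 1 ∧ One f P w) ∨ (One f P v ∧ w = 1) ∨ (One f P v ∧ v = w) ∨
      ∃ R, One f P v ∧ One f P w ∧ One f P R ∧ v ≠ w ∧ v ≠ R ∧ w ≠ R ∧ ones f P = {v, w, R} := by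
  rcases (mem_VV hf hP).1 hv with rfl | h <;> rcases (mem_VV hf hP).1 hw with rfl | h'
  · left; exact ⟨rfl, rfl⟩
  · right; left; exact ⟨rfl, h'⟩
  · right; right; left; exact ⟨h, rfl⟩
  · by_cases he : v = w
    · right; right; right; left; exact ⟨h, he⟩
    · obtain ⟨R, hR, h1, h2, h3⟩ := exists_third hf hP h h' he
      right; right; right; right
      exact ⟨R, h, h', hR, he, h1, h2, h3⟩

theorem addc_one_left (w : k[X]) : addc f P 1 w = w := if_pos rfl

omit [Fintype k] [DecidableEq k] in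
theorem addc_one_right (v : k[X]) : addc f P v 1 = v := by
  unfold addc
  by_cases h : v = 1
  · rw [if_pos h, h]
  · rw [if_neg h, if_pos rfl]

omit [Fintype k] [DecidableEq k] in
theorem addc_self (v : k[X]) : addc f P v v = 1 := by
  unfold addc
  by_cases h : v = 1
  · rw [if_pos h, h]
  · rw [if_neg h, if_neg h, if_pos rfl]

theorem addc_mem (hf : Cub f) (hP : Gd f P) {v w : k[X]} (hv : v ∈ VV f P) (hw : w ∈ VV f P) :
    addc f P v w ∈ VV f P := by
  rcases pair_cases hf hP hv hw with ⟨rfl, rfl⟩ | ⟨rfl, h⟩ | ⟨h, rfl⟩ | ⟨h, rfl⟩ |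
    ⟨R, h1, h2, h3, h12, h13, h23, -⟩
  · rw [addc_one_left]; exact hv
  · rw [addc_one_left]; exact hw
  · rw [addc_one_right]; exact hv
  · rw [addc_self]; exact one_mem_VV
  · rw [addc_third hf h1 h2 h3 h12 h13 h23]
    exact (mem_VV hf hP).2 (Or.inr h3)

/-- The permutation of the pairs of colours has order three. -/
theorem addc_cyc (hf : Cub f) (hP : Gd f P) {v w : k[X]} (hv : v ∈ VV f P) (hw : w ∈ VV f P) :
    addc f P w (addc f P v w) = v ∧ addc f P (addc f P v w) v = w := by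
  rcases pair_cases hf hP hv hw with ⟨rfl, rfl⟩ | ⟨rfl, h⟩ | ⟨h, rfl⟩ | ⟨h, rfl⟩ |
    ⟨R, h1, h2, h3, h12, h13, h23, -⟩
  · simp only [addc_one_left, and_self]
  · simp only [addc_one_left, addc_self, addc_one_right, and_self]
  · simp only [addc_one_left, addc_self, addc_one_right, and_self]
  · simp only [addc_one_left, addc_self, addc_one_right, and_self]
  · rw [addc_third hf h1 h2 h3 h12 h13 h23, addc_third hf h2 h3 h1 h23 (Ne.symm h12) (Ne.symm h13),
      addc_third hf h3 h1 h2 (Ne.symm h13) (Ne.symm h23) h12]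
    exact ⟨rfl, rfl⟩

theorem addc_X (hf : Cub f) (hP : Gd f P) {v w : k[X]} (hv : v ∈ VV f P) (hw : w ∈ VV f P) :
    (w ≠ 1 ∧ addc f P v w ≠ 1 ∧ w ≠ addc f P v w) ↔ (v ≠ 1 ∧ w ≠ 1 ∧ v ≠ w) := by
  rcases pair_cases hf hP hv hw with ⟨rfl, rfl⟩ | ⟨rfl, h⟩ | ⟨h, rfl⟩ | ⟨h, rfl⟩ |
    ⟨R, h1, h2, h3, h12, h13, h23, -⟩
  · simp
  · simp [addc_one_left]
  · simp
  · simp [addc_self]
  · rw [addc_third hf h1 h2 h3 h12 h13 h23]
    constructor
    · intro _
      exact ⟨h1.ne_one, h2.ne_one, h12⟩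
    · intro _
      exact ⟨h2.ne_one, h3.ne_one, h23⟩

theorem bb_one_left (w : k[X]) : bb f P 1 w = 1 := by
  unfold bb
  rw [zz_one, Pool.Agent.Y164.PS.lam_one_left]
  split_ifs <;> rfl

theorem bb_symm (hf : Cub f) (hP : Gd f P) (hP' : Gd f P') (hne : P ≠ P') {v w : k[X]}
    (hv : v ∈ VV f P) (hw : w ∈ VV f P') : bb f P v w = bb f P' w v := by
  rcases (mem_VV hf hP).1 hv with rfl | h
  · rw [bb_one_left]
    unfold bb
    rw [if_pos rfl]
  · rcases (mem_VV hf hP').1 hw with rfl | h'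
    · rw [bb_one_left]
      unfold bb
      rw [if_pos rfl]
    · unfold bb
      rw [if_neg h.ne_one, if_neg h'.ne_one]
      exact bsymm hf hP hP' h h' hne

theorem bb_sq (hf : Cub f) (hP : Gd f P) (hP' : Gd f P') (hne : P ≠ P') {v w : k[X]}
    (hv : v ∈ VV f P) (hw : w ∈ VV f P') : bb f P v w * bb f P v w = 1 := by
  unfold bb
  split_ifs with h
  · norm_num
  · have hw' := ((mem_VV hf hP').1 hw).resolve_left h
    exact lam_self_mul hw'.iQ (hw'.ndvd_zz hf hP (Ne.symm hne) hv)

theorem bb_add (hf : Cub f) (hP : Gd f P) (hP' : Gd f P') (hne : P ≠ P') {v v' w : k[X]}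
    (hv : v ∈ VV f P) (hv' : v' ∈ VV f P) (hw : w ∈ VV f P') :
    bb f P (addc f P v v') w = bb f P v w * bb f P v' w := by
  rcases pair_cases hf hP hv hv' with ⟨rfl, rfl⟩ | ⟨rfl, h⟩ | ⟨h, rfl⟩ | ⟨h, rfl⟩ |
    ⟨R, h1, h2, h3, h12, h13, h23, -⟩
  · rw [addc_one_left, bb_one_left, one_mul]
  · rw [addc_one_left, bb_one_left, one_mul]
  · rw [addc_one_right, bb_one_left, mul_one]
  · rw [addc_self, bb_one_left, bb_sq hf hP hP' hne hv hw]
  · rw [addc_third hf h1 h2 h3 h12 h13 h23]
    unfold bb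
    split_ifs with h
    · norm_num
    · have hw' := ((mem_VV hf hP').1 hw).resolve_left h
      have e := bthree hf h1 h2 h3 h12 h13 h23 hw'.iQ (hw'.ndvd_comp hf hP (Ne.symm hne))
      have s := lam_self_mul hw'.iQ (hw'.ndvd_zz hf hP (Ne.symm hne)
        ((mem_VV hf hP).2 (Or.inr h3)))
      linear_combination (lam (zz f P v) w * lam (zz f P v') w) * s - (lam (zz f P R) w) * e

/-- The sign of a pair, symmetrized, does not change under the permutation. -/
theorem pair_inv (hf : Cub f) (hP : Gd f P) (hP' : Gd f P') (hne : P ≠ P') {v w v' w' : k[X]}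
    (hv : v ∈ VV f P) (hw : w ∈ VV f P) (hv' : v' ∈ VV f P') (hw' : w' ∈ VV f P') :
    sig f P' w' P w (addc f P v w) * sig f P w P' w' (addc f P' v' w') =
      sig f P' v' P v w * sig f P v P' v' w' := by
  have ha := addc_mem hf hP hv hw
  have ha' := addc_mem hf hP' hv' hw'
  have e1 : sig f P' w' P w (addc f P v w) = bb f P' w' (addc f P v w) *
      (if v ≠ 1 ∧ w ≠ 1 ∧ v ≠ w then lam P' P else 1) := by
    unfold sig bb
    simp only [addc_X hf hP hv hw]
  have e2 : sig f P w P' w' (addc f P' v' w') = bb f P w (addc f P' v' w') *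
      (if v' ≠ 1 ∧ w' ≠ 1 ∧ v' ≠ w' then lam P P' else 1) := by
    unfold sig bb
    simp only [addc_X hf hP' hv' hw']
  have e3 : sig f P' v' P v w = bb f P' v' w *
      (if v ≠ 1 ∧ w ≠ 1 ∧ v ≠ w then lam P' P else 1) := rfl
  have e4 : sig f P v P' v' w' = bb f P v w' *
      (if v' ≠ 1 ∧ w' ≠ 1 ∧ v' ≠ w' then lam P P' else 1) := rfl
  rw [e1, e2, e3, e4, bb_symm hf hP' hP (Ne.symm hne) hw' ha, bb_add hf hP hP' hne hv hw hw',
    bb_symm hf hP hP' hne hw ha', bb_add hf hP' hP (Ne.symm hne) hv' hw' hw,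
    bb_symm hf hP' hP (Ne.symm hne) hw' hw]
  have s := bb_sq hf hP hP' hne hw hw'
  generalize (if v ≠ 1 ∧ w ≠ 1 ∧ v ≠ w then lam P' P else 1) = a at *
  generalize (if v' ≠ 1 ∧ w' ≠ 1 ∧ v' ≠ w' then lam P P' else 1) = b at *
  linear_combination (bb f P v w' * bb f P' v' w * a * b) * s

theorem dgn_inv (hf : Cub f) (u : k) (hP : Gd f P) {v w : k[X]}
    (hv : v ∈ VV f P) (hw : w ∈ VV f P) : dgn f u P w (addc f P v w) = dgn f u P v w := by
  unfold dgn
  simp only [addc_X hf hP hv hw]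
  split_ifs with h
  · rcases pair_cases hf hP hv hw with ⟨rfl, rfl⟩ | ⟨rfl, h'⟩ | ⟨h', rfl⟩ | ⟨h', rfl⟩ |
      ⟨R, h1, h2, h3, h12, h13, h23, -⟩
    · exact absurd rfl h.1
    · exact absurd rfl h.1
    · exact absurd rfl h.2.1
    · exact absurd rfl h.2.2
    · rw [addc_third hf h1 h2 h3 h12 h13 h23, eta_symm hf h1 h2 h12,
        eta_eq hf hP h2 h1 h3 (Ne.symm h12) h23 h13]
  · rfl

end fin

end Pool.Agent.H4.SA
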