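import Pool.Agent.H4.SA.Eta

/-!
# The signs of the coloured primes
-/

set_option autoImplicit false
set_option linter.all false

open Polynomial
open scoped Classical

namespace Pool.Agent.H4.SA

open Pool.Agent.H341R2.Sharp (lam)
open Pool.Agent.Y164.PS (lam_mem lam_eq_zero_iff lam_mul_left lam_irr Pr mem_Pr)
open Pool.Agent.X261.TD (ones)

/-- The colours of `P`: `1` and the primes of degree one over `P`. -/
noncomputable def VV {k : Type} [Field k] (f P : k[X]) : Finset k[X] := insert 1 (ones f P)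

section basic

variable {k : Type} [Field k] {f P Q : k[X]}

theorem mem_VV (hf : Cub f) (hP : Gd f P) {v : k[X]} : v ∈ VV f P ↔ v = 1 ∨ One f P v := by
  unfold VV
  rw [Finset.mem_insert, mem_ones hf hP.mP hP.iP]

theorem one_mem_VV : (1 : k[X]) ∈ VV f P := Finset.mem_insert_self _ _

theorem card_VV (hf : Cub f) (hP : Gd f P) : (VV f P).card = 1 + (ones f P).card := by
  unfold VV
  rw [Finset.card_insert_of_notMem, add_comm]
  intro h
  exact ((mem_ones hf hP.mP hP.iP).1 h).ne_one rfl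

theorem card_VV_pos : 0 < (VV f P).card := Finset.card_pos.2 ⟨1, one_mem_VV⟩

theorem card_VV_le (hf : Cub f) (hP : Gd f P) : (VV f P).card ≤ 4 := by
  rw [card_VV hf hP]
  have := card_ones_le hf hP.iP
  omega

theorem zz_dvd (hf : Cub f) (hP : Gd f P) {v : k[X]} (hv : v ∈ VV f P) : zz f P v ∣ P.comp f := by
  rcases (mem_VV hf hP).1 hv with rfl | h
  · rw [zz_one]
    exact one_dvd _
  · rw [h.zz_mul]
    exact dvd_mul_left _ _

theorem zz_ne_zero (hf : Cub f) (hP : Gd f P) {v : k[X]} (hv : v ∈ VV f P) : zz f P v ≠ 0 := by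
  rcases (mem_VV hf hP).1 hv with rfl | h
  · rw [zz_one]
    exact one_ne_zero
  · exact h.zz_ne hf

theorem zz_mon (hf : Cub f) (hP : Gd f P) {v : k[X]} (hv : v ∈ VV f P) : (zz f P v).Monic := by
  rcases (mem_VV hf hP).1 hv with rfl | h
  · rw [zz_one]
    exact monic_one
  · exact h.zz_monic hf

/-- The three primes of degree one. -/
theorem exists_third [Fintype k] [DecidableEq k] (hf : Cub f) (hP : Gd f P) {Q Q' : k[X]}
    (h : One f P Q) (h' : One f P Q') (hne : Q ≠ Q') :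
    ∃ R, One f P R ∧ Q ≠ R ∧ Q' ≠ R ∧ ones f P = {Q, Q', R} := by
  have h1 := lam_dlt_of_ne hf hP h h' hne
  have h3 : (ones f P).card = 3 := by
    rcases card_ones hf hP h with h2 | h2
    · exact h2.2
    · rw [h2.1] at h1
      norm_num at h1
  have hm : ∀ R, R ∈ ones f P ↔ One f P R := fun R => mem_ones hf h.mP h.iP
  have hs : ({Q, Q'} : Finset k[X]) ⊆ ones f P := by
    intro R hR
    simp only [Finset.mem_insert, Finset.mem_singleton] at hR
    rcases hR with rfl | rfl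
    · exact (hm _).2 h
    · exact (hm _).2 h'
  have h4 : ((ones f P) \ {Q, Q'}).card = 1 := by
    rw [Finset.card_sdiff_of_subset hs, h3, Finset.card_pair hne]
  obtain ⟨R, hR⟩ := Finset.card_eq_one.1 h4
  have hR1 : R ∈ ones f P \ {Q, Q'} := by rw [hR]; exact Finset.mem_singleton_self R
  rw [Finset.mem_sdiff] at hR1
  simp only [Finset.mem_insert, Finset.mem_singleton, not_or] at hR1
  refine ⟨R, (hm _).1 hR1.1, Ne.symm hR1.2.1, Ne.symm hR1.2.2, ?_⟩
  rw [← Finset.sdiff_union_of_subset hs, hR]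
  ext x
  simp only [Finset.mem_union, Finset.mem_singleton, Finset.mem_insert]
  tauto

end basic

section fin

variable {k : Type} [Field k] [Fintype k] [DecidableEq k] {f P Q P' Q' : k[X]}

theorem One.ndvd_comp (hf : Cub f) (h : One f P Q) (hP' : Gd f P') (hne : P ≠ P') : ¬ Q ∣ P'.comp f :=
  not_dvd_of_ne ⟨h.mP, h.iP⟩ ⟨hP'.mP, hP'.iP⟩ hne h.iQ h.dvd

theorem One.ndvd_zz (hf : Cub f) (h : One f P Q) (hP' : Gd f P') (hne : P ≠ P') {v : k[X]}
    (hv : v ∈ VV f P') : ¬ Q ∣ zz f P' v := fun hd =>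
  h.ndvd_comp hf hP' hne (hd.trans (zz_dvd hf hP' hv))

/-- The symbol is symmetric. -/
theorem bsymm (hf : Cub f) (hP : Gd f P) (hP' : Gd f P') (h : One f P Q) (h' : One f P' Q')
    (hne : P ≠ P') : lam (zz f P Q) Q' = lam (zz f P' Q') Q := by
  have a1 : lam (P.comp f) Q' = lam P P' := h'.lam_comp hf.rc P
  have a2 : lam (P'.comp f) Q = lam P' P := h.lam_comp hf.rc P'
  rw [h.zz_mul, lam_mul_left h.iQ.ne_zero (h.zz_ne hf)] at a1
  rw [h'.zz_mul, lam_mul_left h'.iQ.ne_zero (h'.zz_ne hf)] at a2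
  have hQQ' : ¬ Q' ∣ Q := by
    intro hd
    have := eq_of_monic_of_associated h'.mQ h.mQ (h'.iQ.associated_of_dvd h.iQ hd)
    subst this
    exact h.ndvd_comp hf hP' hne h'.dvd
  have hQ'Q : ¬ Q ∣ Q' := by
    intro hd
    have := eq_of_monic_of_associated h.mQ h'.mQ (h.iQ.associated_of_dvd h'.iQ hd)
    subst this
    exact h.ndvd_comp hf hP' hne h'.dvd
  have s1 := lam_self_mul h'.iQ hQQ'
  have s2 := lam_self_mul h.iQ hQ'Q
  have r1 := lam_rec Q Q'
  have r2 := lam_rec P P'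
  rw [h.deg, h'.deg] at r1
  have ee := eps_even (k := k) (⟨P.natDegree * P'.natDegree, rfl⟩ :
    Even (P.natDegree * P'.natDegree + P.natDegree * P'.natDegree))
  rw [pow_add] at ee
  generalize eps k ^ (P.natDegree * P'.natDegree) = e at *
  generalize lam Q Q' = A at *
  generalize lam Q' Q = B at *
  generalize lam (zz f P Q) Q' = x at *
  generalize lam (zz f P' Q') Q = y at *
  generalize lam P P' = c at *
  generalize lam P' P = d at *
  -- `A x = c`, `B y = d`, `A = e B`, `c = e d`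
  have h1 : x = A * c := by linear_combination A * a1 - x * s1
  have h2 : y = B * d := by linear_combination B * a2 - y * s2
  rw [h1, h2, r1, r2]
  linear_combination (B * d) * ee

/-- The values at the three primes. -/
theorem bthree (hf : Cub f) {Q1 Q2 Q3 R : k[X]} (h1 : One f P Q1) (h2 : One f P Q2)
    (h3 : One f P Q3) (h12 : Q1 ≠ Q2) (h13 : Q1 ≠ Q3) (h23 : Q2 ≠ Q3) (iR : Irreducible R)
    (hR : ¬ R ∣ P.comp f) : lam (zz f P Q1) R * lam (zz f P Q2) R * lam (zz f P Q3) R = 1 := by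
  rw [zz_three hf h1 h2 h3 h12 h13 h23, zz_three hf h2 h1 h3 (Ne.symm h12) h23 h13,
    zz_three hf h3 h1 h2 (Ne.symm h13) (Ne.symm h23) h12, lam_mul_left h2.iQ.ne_zero h3.iQ.ne_zero,
    lam_mul_left h1.iQ.ne_zero h3.iQ.ne_zero, lam_mul_left h1.iQ.ne_zero h2.iQ.ne_zero]
  have s1 := lam_self_mul iR (fun hd => hR (hd.trans h1.dvd))
  have s2 := lam_self_mul iR (fun hd => hR (hd.trans h2.dvd))
  have s3 := lam_self_mul iR (fun hd => hR (hd.trans h3.dvd))
  generalize lam Q1 R = a at *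
  generalize lam Q2 R = b at *
  generalize lam Q3 R = c at *
  have : b * c * (a * c) * (a * b) = (a * a) * (b * b) * (c * c) := by ring
  rw [this, s1, s2, s3]
  norm_num

/-- The product formula. -/
theorem prodform (hf : Cub f) (hP : Gd f P) (hP' : Gd f P') (hne : P ≠ P') {Q1 Q2 Q3 v : k[X]}
    (h1 : One f P Q1) (h2 : One f P Q2) (h3 : One f P Q3) (h12 : Q1 ≠ Q2) (h13 : Q1 ≠ Q3)
    (h23 : Q2 ≠ Q3) (hv : v ∈ VV f P') :
    lam (zz f P' v) Q1 * lam (zz f P' v) Q2 * lam (zz f P' v) Q3 = 1 := by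
  rcases (mem_VV hf hP').1 hv with rfl | h
  · rw [zz_one, Pool.Agent.Y164.PS.lam_one_left, Pool.Agent.Y164.PS.lam_one_left,
      Pool.Agent.Y164.PS.lam_one_left]
    norm_num
  · rw [← bsymm hf hP hP' h1 h hne, ← bsymm hf hP hP' h2 h hne, ← bsymm hf hP hP' h3 h hne]
    exact bthree hf h1 h2 h3 h12 h13 h23 h.iQ (h.ndvd_comp hf hP (Ne.symm hne))

/-- The sign of an ordered pair of coloured primes. -/
noncomputable def sig (f : k[X]) (P' v' P v w : k[X]) : ℤ :=
  (if w = 1 then 1 else lam (zz f P' v') w) * (if v ≠ 1 ∧ w ≠ 1 ∧ v ≠ w then lam P' P else 1)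

/-- The sign of a coloured prime. -/
noncomputable def dgn (f : k[X]) (u : k) (P v w : k[X]) : ℤ :=
  if v ≠ 1 ∧ w ≠ 1 ∧ v ≠ w then lam (C u) P * eta f P v w else 1

theorem lam_primes (hP : Gd f P) (hP' : Gd f P') (hne : P ≠ P') : ¬ P ∣ P' := fun hd =>
  hne (eq_of_monic_of_associated hP.mP hP'.mP (hP.iP.associated_of_dvd hP'.iP hd))

theorem sig_sq (hf : Cub f) (hP : Gd f P) (hP' : Gd f P') (hne : P ≠ P') {v v' w : k[X]}
    (hv' : v' ∈ VV f P') (hw : w ∈ VV f P) : sig f P' v' P v w * sig f P' v' P v w = 1 := by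
  have h1 : (if w = 1 then 1 else lam (zz f P' v') w) * (if w = 1 then 1 else lam (zz f P' v') w) =
      (1 : ℤ) := by
    split_ifs with h
    · norm_num
    · have hw' := ((mem_VV hf hP).1 hw).resolve_left h
      exact lam_self_mul hw'.iQ (hw'.ndvd_zz hf hP' hne hv')
  have h2 : (if v ≠ 1 ∧ w ≠ 1 ∧ v ≠ w then lam P' P else 1) *
      (if v ≠ 1 ∧ w ≠ 1 ∧ v ≠ w then lam P' P else 1) = (1 : ℤ) := by
    split_ifs with h
    · exact lam_self_mul hP.iP (lam_primes hP hP' hne)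
    · norm_num
  unfold sig
  rw [mul_mul_mul_comm, h1, h2, one_mul]

theorem eta_sq (hf : Cub f) (hP : Gd f P) (h : One f P Q) (h' : One f P Q') (hne : Q ≠ Q') :
    eta f P Q Q' * eta f P Q Q' = 1 := by
  unfold eta
  have h1 : ¬ Q' ∣ Q := fun hd =>
    hne (eq_of_monic_of_associated h'.mQ h.mQ (h'.iQ.associated_of_dvd h.iQ hd)).symm
  rw [mul_mul_mul_comm, lam_self_mul h'.iQ h1,
    lam_self_mul h.iP (h.rho_ne h' hne h.rh_spec h'.rh_spec), one_mul]

theorem lamC_sq {u : k} (hu : u ≠ 0) (P : k[X]) : lam (C u) P * lam (C u) P = 1 := by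
  rw [lam_C, ← mul_pow, ← pow_two, quadraticChar_sq_one hu, one_pow]

theorem dgn_sq (hf : Cub f) {u : k} (hu : u ≠ 0) (hP : Gd f P) {v w : k[X]} (hv : v ∈ VV f P)
    (hw : w ∈ VV f P) : dgn f u P v w * dgn f u P v w = 1 := by
  unfold dgn
  split_ifs with h
  · have hv' := ((mem_VV hf hP).1 hv).resolve_left h.1
    have hw' := ((mem_VV hf hP).1 hw).resolve_left h.2.1
    rw [mul_mul_mul_comm, lamC_sq hu, eta_sq hf hP hv' hw' h.2.2, one_mul]
  · norm_num

end fin

end Pool.Agent.H4.SA
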